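import Pool.Agent.H16.Conf40

namespace Pool.Agent.Results.MP_ec4eff_co.Eight

open Pool.Agent.H16.GeoConf

theorem result : ∃ P L, IsConf 40 4 32 5 P L := C40.main

end Pool.Agent.Results.MP_ec4eff_co.Eight
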